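import Pool.Agent.H13.GameJ.Proof

open Cardinal Set Topology Pool.Agent.H13.GameJ

universe u

namespace Pool.Agent.Results.MP_26a47b_lc.GameCardinalJ

/-- **The game cardinal `𝔧` is `non(SMZ)`.**

The first two items compute `𝔧` exactly as it is defined, with `c(X)` a supremum: `𝔧 = non(SMZ)`
unless `non(SMZ)` is weakly inaccessible, and then `𝔧` is its successor.
The third item: if `c(X) ≥ κ` is read as `X` has a cellular family of cardinality at least `κ`,
the least such cardinal is `non(SMZ)` outright.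
The fourth item: the lower bound is already witnessed by compact Hausdorff spaces without isolated
points. -/
theorem result :
    (¬ IsWeaklyInaccessible nonSMZ → gameJ.{u} = lift.{u} nonSMZ) ∧
    (IsWeaklyInaccessible nonSMZ → gameJ.{u} = lift.{u} (Order.succ nonSMZ)) ∧
    IsLeast {κ : Cardinal.{u} | ∀ (X : Type u) [TopologicalSpace X] [T35Space X],
      (∃ 𝒱 : Set (Set X), IsCellular 𝒱 ∧ κ ≤ #𝒱) → OneWins X} (lift.{u} nonSMZ) ∧
    ∀ κ : Cardinal.{u}, κ < lift.{u} nonSMZ →
      ∃ (X : Type u) (_ : TopologicalSpace X), CompactSpace X ∧ T2Space X ∧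
        (∀ x : X, ¬ IsOpen ({x} : Set X)) ∧
        (∃ 𝒱 : Set (Set X), IsCellular 𝒱 ∧ κ ≤ #𝒱) ∧ ¬ OneWins X :=
  ⟨fun h => (isLeast_of_not_isWeaklyInaccessible h).csInf_eq,
    fun h => (isLeast_of_isWeaklyInaccessible h).csInf_eq, isLeast_attained,
    exists_crowded_space⟩

end Pool.Agent.Results.MP_26a47b_lc.GameCardinalJ
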